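import Pool.Agent.Helper96.SE.Stmts
import Pool.Agent.Helper31.BC.EX
import Pool.Agent.Helper58.BC.CPL

set_option autoImplicit false

/-! Existence of branch-and-cut proofs from subtour elimination inequalities. -/

namespace Pool.Agent.Helper96.SE

open Pool.Agent.Helper31.BC (dst tourLen Pair Ineq Refutes exL exU ex_sum cplW cplU cpl_U_sum
  cpl_unique cpl_derive st_CPL)

/-- if all variables are fixed to `z`, every inequality true at `z` can be added -/
theorem ex_add {n : ℕ} (R : ℕ) (K : (Pair n → ℤ) → Prop) (Γ : Set (Ineq n)) (z : Pair n → ℤ)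
    (e0 : Pair n) (hK : ∀ x, K x → ∀ e, |x e - z e| ≤ R)
    (h1 : ∀ e, exL e (z e : ℝ) ∈ Γ) (h2 : ∀ e, exU e (-(z e : ℝ)) ∈ Γ) (l : Ineq n)
    (hl : l.Holds z) (h : ∃ t, Refutes K (insert l (insert (cplU n R z (-1) Finset.univ)
      (insert (cplU n R z 1 Finset.univ) Γ))) t) : ∃ t, Refutes K Γ t := by
  classical
  have h1' : ∀ e, (⟨fun e' => if e' = e then (1 : ℝ) else 0, (1 : ℝ) * z e⟩ : Ineq n) ∈ Γ := by
    intro e
    have := h1 e
    rw [one_mul]
    exact this
  have h2' : ∀ e, (⟨fun e' => if e' = e then (-1 : ℝ) else 0, (-1 : ℝ) * z e⟩ : Ineq n) ∈ Γ := by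
    intro e
    have := h2 e
    rw [neg_one_mul]
    exact this
  obtain ⟨t, ht⟩ := h
  apply cpl_derive n R K z 1 e0 Finset.univ Γ h1'
  apply cpl_derive n R K z (-1) e0 Finset.univ _ (fun e => Set.mem_insert_of_mem _ (h2' e))
  refine ⟨t + 1, Refutes.cut (cplU n R z (-1) Finset.univ) (cplU n R z 1 Finset.univ) l
    (Set.mem_insert _ _) (Set.mem_insert_of_mem _ (Set.mem_insert _ _)) ?_ ht⟩
  intro x hx hV hU
  rw [cpl_U_sum] at hU hV
  have hxz : x = z := by
    apply cpl_unique n R x z (hK x hx)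
    have h3 : ∑ e : Pair n, (-1 : ℝ) * (cplW n R e : ℝ) * (z e : ℝ) =
        - ∑ e : Pair n, (1 : ℝ) * (cplW n R e : ℝ) * (z e : ℝ) := by
      rw [← Finset.sum_neg_distrib]
      refine Finset.sum_congr rfl ?_
      intro e _
      ring
    have h4 : ∑ e : Pair n, (-1 : ℝ) * (cplW n R e : ℝ) * (x e : ℝ) =
        - ∑ e : Pair n, (1 : ℝ) * (cplW n R e : ℝ) * (x e : ℝ) := by
      rw [← Finset.sum_neg_distrib]
      refine Finset.sum_congr rfl ?_
      intro e _
      ring
    rw [h3, h4] at hV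
    have h5 : ∑ e : Pair n, (1 : ℝ) * (cplW n R e : ℝ) * (x e : ℝ) =
        ∑ e : Pair n, (1 : ℝ) * (cplW n R e : ℝ) * (z e : ℝ) := by linarith
    have h6 : ((∑ e : Pair n, cplW n R e * (x e - z e) : ℤ) : ℝ) = 0 := by
      push_cast
      have h7 : ∑ e : Pair n, (cplW n R e : ℝ) * ((x e : ℝ) - (z e : ℝ)) =
          ∑ e : Pair n, (1 : ℝ) * (cplW n R e : ℝ) * (x e : ℝ) -
            ∑ e : Pair n, (1 : ℝ) * (cplW n R e : ℝ) * (z e : ℝ) := by
        rw [← Finset.sum_sub_distrib]
        refine Finset.sum_congr rfl ?_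
        intro e _
        ring
      rw [h7, h5, sub_self]
    exact_mod_cast h6
  rw [hxz]
  exact hl

/-- the value of the cut -/
theorem ex_cut {n : ℕ} (S : Finset (Fin n)) (x : Pair n → ℤ) :
    ∑ e : Pair n, (if (e.1.1 ∈ S ↔ e.1.2 ∈ S) then (0 : ℝ) else 1) * (x e : ℝ) =
      ((∑ e : Pair n, (if (e.1.1 ∈ S ↔ e.1.2 ∈ S) then 0 else x e) : ℤ) : ℝ) := by
  push_cast
  refine Finset.sum_congr rfl fun e _ => ?_
  by_cases h : (e.1.1 ∈ S ↔ e.1.2 ∈ S)
  · rw [if_pos h, if_pos h, zero_mul]
  · rw [if_neg h, if_neg h, one_mul]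

theorem st_EX (hTR : Pool.Agent.Helper31.BC.ST_TR) : ST_EX := by
  intro n P B hn hB
  classical
  have e0 : Pair n := ⟨(⟨0, by omega⟩, ⟨1, by omega⟩), by
    simp [Fin.lt_def]⟩
  have main : ∀ (T : Finset (Pair n)) (Γ : Set (Ineq n)) (z : Pair n → ℤ),
      (∀ S : Finset (Fin n), S.Nonempty → S ≠ Finset.univ → subtour S ∈ Γ) →
      (∀ e, z e = 0 ∨ z e = 1) →
      (∀ e, e ∉ T → exL e (z e : ℝ) ∈ Γ ∧ exU e (-(z e : ℝ)) ∈ Γ) →
      ∃ t, Refutes (TwoFactor P B) Γ t := by
    intro T
    induction T using Finset.induction_on with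
    | empty =>
      intro Γ z hΓ hz hl
      have hR : ∀ x, TwoFactor P B x → ∀ e, |x e - z e| ≤ ((1 : ℕ) : ℤ) := by
        intro x hx e
        rw [abs_le]
        rcases hz e with h | h <;> rcases hx.bin e with h' | h' <;> rw [h, h'] <;>
          constructor <;> norm_num
      by_cases hK : TwoFactor P B z
      · -- a two-factor which is not a tour
        obtain ⟨S, hS1, hS2, hS3⟩ : ∃ S : Finset (Fin n), S.Nonempty ∧ S ≠ Finset.univ ∧
            ∑ e : Pair n, (if (e.1.1 ∈ S ↔ e.1.2 ∈ S) then 0 else z e) < 2 := by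
          by_contra hcon
          push Not at hcon
          obtain ⟨σ, hσ⟩ := hTR n z hn (fun e => by rcases hz e with h | h <;> omega) hK.deg
            (fun S h1 h2 => hcon S h1 h2)
          have h1 := hσ (fun i j => dst (P i) (P j)) (fun i j => by
            unfold dst
            congr 1
            push_cast
            ring)
          have h2 := hK.len
          have h3 := hB σ
          unfold tourLen at h3
          rw [h1] at h2
          linarith
        have hcut : ∀ x : Pair n → ℤ, (⟨fun e => -(if (e.1.1 ∈ S ↔ e.1.2 ∈ S) then (0 : ℝ) else 1),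
            -1⟩ : Ineq n).Holds x ↔
            ∑ e : Pair n, (if (e.1.1 ∈ S ↔ e.1.2 ∈ S) then 0 else x e) ≤ 1 := by
          intro x
          unfold Ineq.Holds
          simp only [neg_mul]
          rw [Finset.sum_neg_distrib, ex_cut, neg_le_neg_iff]
          exact_mod_cast Iff.rfl
        refine ex_add 1 _ Γ z e0 hR (fun e => (hl e (by simp)).1) (fun e => (hl e (by simp)).2)
          ⟨fun e => -(if (e.1.1 ∈ S ↔ e.1.2 ∈ S) then (0 : ℝ) else 1), -1⟩ ((hcut z).2 (by omega))
          ⟨_, Refutes.cut ⟨fun e => -(if (e.1.1 ∈ S ↔ e.1.2 ∈ S) then (0 : ℝ) else 1), -1⟩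
            (subtour S) ⟨fun _ => 0, 1⟩ (Set.mem_insert _ _) (Set.mem_insert_of_mem _
            (Set.mem_insert_of_mem _ (Set.mem_insert_of_mem _ (hΓ S hS1 hS2)))) ?_
            (Refutes.done ⟨fun _ => 0, 1⟩ (Set.mem_insert _ _) ?_)⟩
        · intro x _ hx1 hx2
          exfalso
          rw [hcut] at hx1
          unfold Ineq.Holds subtour at hx2
          simp only at hx2
          rw [ex_cut] at hx2
          have hx3 : (2 : ℤ) ≤ ∑ e : Pair n, (if (e.1.1 ∈ S ↔ e.1.2 ∈ S) then 0 else x e) := by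
            exact_mod_cast hx2
          omega
        · intro x _ hh
          unfold Ineq.Holds at hh
          simp only [zero_mul, Finset.sum_const_zero] at hh
          linarith
      · exact st_CPL n 1 (TwoFactor P B) Γ z hR hK (fun e => (hl e (by simp)).1)
          (fun e => (hl e (by simp)).2)
    | insert e T he ih =>
      intro Γ z hΓ hz hl
      have hdis : ∀ (v : ℤ) (Δ : Set (Ineq n)), (v = 0 ∨ v = 1) → Γ ⊆ Δ →
          exL e (v : ℝ) ∈ Δ → exU e (-(v : ℝ)) ∈ Δ → ∃ t, Refutes (TwoFactor P B) Δ t := by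
        intro v Δ hv hΔ h1 h2
        refine ih Δ (Function.update z e v) (fun S hS1 hS2 => hΔ (hΓ S hS1 hS2)) ?_ ?_
        · intro e'
          by_cases h : e' = e
          · subst h
            rw [Function.update_self]
            exact hv
          · rw [Function.update_of_ne h]
            exact hz e'
        · intro e' he'
          by_cases h : e' = e
          · subst h
            rw [Function.update_self]
            exact ⟨h1, h2⟩
          · rw [Function.update_of_ne h]
            have := hl e' (by simp [h, he'])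
            exact ⟨hΔ this.1, hΔ this.2⟩
      have hLU : ∀ x, TwoFactor P B x → (exL e 0).Holds x ∧ (exU e (-1)).Holds x := by
        intro x hx
        unfold Ineq.Holds exL exU
        simp only
        rw [ex_sum, ex_sum]
        rcases hx.bin e with h | h <;> rw [h] <;> constructor <;> norm_num
      have hA : (⟨fun e' => -(((if e' = e then 1 else 0 : ℤ)) : ℝ), -((0 : ℤ) : ℝ)⟩ : Ineq n) =
          exU e (-((0 : ℤ) : ℝ)) := by
        unfold exU
        congr 1
        funext e''
        by_cases h : e'' = e <;> simp [h]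
      have hB' : (⟨fun e' => (((if e' = e then 1 else 0 : ℤ)) : ℝ), ((0 : ℤ) : ℝ) + 1⟩ : Ineq n) =
          exL e ((1 : ℤ) : ℝ) := by
        unfold exL
        congr 1
        · funext e''
          by_cases h : e'' = e <;> simp [h]
        · simp
      obtain ⟨s, hs⟩ := hdis 0 (insert (exL e ((0 : ℤ) : ℝ)) (insert (exU e (-((0 : ℤ) : ℝ))) Γ))
        (Or.inl rfl) (fun x hx => Set.mem_insert_of_mem _ (Set.mem_insert_of_mem _ hx))
        (Set.mem_insert _ _) (Set.mem_insert_of_mem _ (Set.mem_insert _ _))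
      obtain ⟨t, ht⟩ := hdis 1 (insert (exU e (-((1 : ℤ) : ℝ))) (insert (exL e ((1 : ℤ) : ℝ)) Γ))
        (Or.inr rfl) (fun x hx => Set.mem_insert_of_mem _ (Set.mem_insert_of_mem _ hx))
        (Set.mem_insert_of_mem _ (Set.mem_insert _ _)) (Set.mem_insert _ _)
      refine ⟨(s + 1) + (t + 1) + 1,
        Refutes.branch (fun e' => if e' = e then 1 else 0) 0 ?_ ?_⟩
      · rw [hA]
        refine Refutes.cut _ _ _ (Set.mem_insert _ _) (Set.mem_insert _ _) ?_ hs
        intro x hx _ _
        have := (hLU x hx).1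
        rwa [Int.cast_zero]
      · rw [hB']
        refine Refutes.cut _ _ _ (Set.mem_insert _ _) (Set.mem_insert _ _) ?_ ht
        intro x hx _ _
        have := (hLU x hx).2
        rwa [Int.cast_one]
  exact main Finset.univ (Subtours n) (fun _ => 0) (fun S h1 h2 => ⟨S, h1, h2, rfl⟩)
    (fun _ => Or.inl rfl) (fun e he => absurd (Finset.mem_univ e) he)

end Pool.Agent.Helper96.SE
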